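import Pool.Agent.Helper82.BR.St3

set_option autoImplicit false

namespace Pool.Agent.Helper97.BR

open Pool.Agent.Helper82.BR

lemma eqd (s p q : ℂ) (h : dist s p = dist s q) :
    (s.re - p.re) ^ 2 + (s.im - p.im) ^ 2 = (s.re - q.re) ^ 2 + (s.im - q.im) ^ 2 := by
  rw [Complex.dist_eq_re_im, Complex.dist_eq_re_im] at h
  exact (Real.sqrt_inj (by positivity) (by positivity)).mp h

lemma two (T : Finset ℂ) (hT : Rich T) (p q : ℂ) (hp : p ∈ T) (hq : q ∈ T) (hpq : p ≠ q) :
    ∃ s ∈ T, ∃ t ∈ T, s ≠ t ∧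
      (s.re - p.re) ^ 2 + (s.im - p.im) ^ 2 = (s.re - q.re) ^ 2 + (s.im - q.im) ^ 2 ∧
      (t.re - p.re) ^ 2 + (t.im - p.im) ^ 2 = (t.re - q.re) ^ 2 + (t.im - q.im) ^ 2 := by
  have h := hT p hp q hq hpq
  obtain ⟨s, hs, t, ht, hst⟩ := Finset.one_lt_card.mp (lt_of_lt_of_le one_lt_two h)
  rw [Finset.mem_filter] at hs ht
  exact ⟨s, hs.1, t, ht.1, hst, eqd _ _ _ hs.2, eqd _ _ _ ht.2⟩

lemma core (T : Finset ℂ) (h y2 y4 : ℝ) (h0 : h ≠ 0) (h20 : y2 ≠ 0) (h40 : y4 ≠ 0)
    (h2 : h ≠ y2) (h4 : h ≠ y4) (hR : Rich T)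
    (hT : ∀ z : ℂ, z ∈ T ↔ z = ⟨-1, 0⟩ ∨ z = ⟨0, 0⟩ ∨ z = ⟨1, 0⟩ ∨ z = ⟨0, 2 * h⟩ ∨
      z = ⟨-1/2, h⟩ ∨ z = ⟨-1/2, y2⟩ ∨ z = ⟨1/2, h⟩ ∨ z = ⟨1/2, y4⟩) : False := by
  have hh : 0 < h ^ 2 := by positivity
  -- the left pair
  have hl : y2 = -h ∨ (y2 = 3 * h ∧ y4 = 2 * h) := by
    obtain ⟨s, hs, t, ht, hst, e1, e2⟩ := two T hR ⟨-1/2, h⟩ ⟨-1/2, y2⟩
      ((hT _).mpr (by tauto)) ((hT _).mpr (by tauto)) (by
        intro hc; exact h2 (congrArg Complex.im hc))
    have key : ∀ u ∈ T, (u.re - (-1/2)) ^ 2 + (u.im - h) ^ 2 = (u.re - (-1/2)) ^ 2 + (u.im - y2) ^ 2 →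
        y2 = -h ∨ (u = ⟨0, 2 * h⟩ ∧ y2 = 3 * h) ∨ (u = ⟨1/2, y4⟩ ∧ y4 = (h + y2) / 2) := by
      intro u hu e
      have e' : u.im = (h + y2) / 2 := by
        have h3 : (y2 - h) * (u.im - (h + y2) / 2) = 0 := by linear_combination e / 2
        rcases mul_eq_zero.mp h3 with h5 | h5
        · exact absurd (by linarith) h2
        · linarith
      rcases (hT u).mp hu with rfl | rfl | rfl | rfl | rfl | rfl | rfl | rfl
      · left; simp only at e'; linarith
      · left; simp only at e'; linarith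
      · left; simp only at e'; linarith
      · right; left; simp only at e'; exact ⟨rfl, by linarith⟩
      · simp only at e'; exact absurd (by linarith) h2
      · simp only at e'; exact absurd (by linarith) h2
      · simp only at e'; exact absurd (by linarith) h2
      · right; right; simp only at e'; exact ⟨rfl, e'⟩
    rcases key s hs e1 with a | ⟨a1, a2⟩ | ⟨a1, a2⟩
    · left; exact a
    · rcases key t ht e2 with b | ⟨b1, b2⟩ | ⟨b1, b2⟩
      · left; exact b
      · exact absurd (a1.trans b1.symm) hst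
      · right; exact ⟨a2, by rw [b2, a2]; ring⟩
    · rcases key t ht e2 with b | ⟨b1, b2⟩ | ⟨b1, b2⟩
      · left; exact b
      · right; exact ⟨b2, by rw [a2, b2]; ring⟩
      · exact absurd (a1.trans b1.symm) hst
  have hr : y4 = -h ∨ (y4 = 3 * h ∧ y2 = 2 * h) := by
    obtain ⟨s, hs, t, ht, hst, e1, e2⟩ := two T hR ⟨1/2, h⟩ ⟨1/2, y4⟩
      ((hT _).mpr (by tauto)) ((hT _).mpr (by tauto)) (by
        intro hc; exact h4 (congrArg Complex.im hc))
    have key : ∀ u ∈ T, (u.re - (1/2)) ^ 2 + (u.im - h) ^ 2 = (u.re - (1/2)) ^ 2 + (u.im - y4) ^ 2 →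
        y4 = -h ∨ (u = ⟨0, 2 * h⟩ ∧ y4 = 3 * h) ∨ (u = ⟨-1/2, y2⟩ ∧ y2 = (h + y4) / 2) := by
      intro u hu e
      have e' : u.im = (h + y4) / 2 := by
        have h3 : (y4 - h) * (u.im - (h + y4) / 2) = 0 := by linear_combination e / 2
        rcases mul_eq_zero.mp h3 with h5 | h5
        · exact absurd (by linarith) h4
        · linarith
      rcases (hT u).mp hu with rfl | rfl | rfl | rfl | rfl | rfl | rfl | rfl
      · left; simp only at e'; linarith
      · left; simp only at e'; linarith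
      · left; simp only at e'; linarith
      · right; left; simp only at e'; exact ⟨rfl, by linarith⟩
      · simp only at e'; exact absurd (by linarith) h4
      · right; right; simp only at e'; exact ⟨rfl, e'⟩
      · simp only at e'; exact absurd (by linarith) h4
      · simp only at e'; exact absurd (by linarith) h4
    rcases key s hs e1 with a | ⟨a1, a2⟩ | ⟨a1, a2⟩
    · left; exact a
    · rcases key t ht e2 with b | ⟨b1, b2⟩ | ⟨b1, b2⟩
      · left; exact b
      · exact absurd (a1.trans b1.symm) hst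
      · right; exact ⟨a2, by rw [b2, a2]; ring⟩
    · rcases key t ht e2 with b | ⟨b1, b2⟩ | ⟨b1, b2⟩
      · left; exact b
      · right; exact ⟨b2, by rw [a2, b2]; ring⟩
      · exact absurd (a1.trans b1.symm) hst
  have hy : y2 = -h ∧ y4 = -h := by
    rcases hl with a | ⟨a1, a2⟩
    · rcases hr with b | ⟨b1, b2⟩
      · exact ⟨a, b⟩
      · exact absurd (by linarith) h0
    · rcases hr with b | ⟨b1, b2⟩
      · exact absurd (by linarith) h0
      · exact absurd (by linarith) h0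
  obtain ⟨rfl, rfl⟩ := hy
  -- the pair 0, (1/2, h)
  have hsq : h ^ 2 = 3 / 4 ∨ h ^ 2 = 1 / 12 := by
    obtain ⟨s, hs, t, ht, hst, e1, e2⟩ := two T hR ⟨0, 0⟩ ⟨1/2, h⟩
      ((hT _).mpr (by tauto)) ((hT _).mpr (by tauto)) (by
        intro hc; exact h0 (congrArg Complex.im hc).symm)
    rcases (hT s).mp hs with rfl | rfl | rfl | rfl | rfl | rfl | rfl | rfl <;> simp only at e1
    · nlinarith
    · nlinarith
    · left; nlinarith
    · right; nlinarith
    · left; nlinarith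
    · nlinarith
    · nlinarith
    · right; nlinarith
  have hsq2 : h ^ 2 = 3 / 4 := by
    rcases hsq with a | a
    · exact a
    · exfalso
      obtain ⟨s, hs, t, ht, hst, e1, e2⟩ := two T hR ⟨0, 0⟩ ⟨1/2, -h⟩
        ((hT _).mpr (by tauto)) ((hT _).mpr (by tauto)) (by
          intro hc
          have := congrArg Complex.im hc
          simp only at this
          exact h0 (by linarith))
      have key : ∀ u ∈ T, (u.re - 0) ^ 2 + (u.im - 0) ^ 2 = (u.re - 1/2) ^ 2 + (u.im - -h) ^ 2 →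
          u = ⟨1/2, h⟩ := by
        intro u hu e
        rcases (hT u).mp hu with rfl | rfl | rfl | rfl | rfl | rfl | rfl | rfl
        · exfalso; simp only at e; nlinarith
        · exfalso; simp only at e; nlinarith
        · exfalso; simp only at e; nlinarith
        · exfalso; simp only at e; nlinarith
        · exfalso; simp only at e; nlinarith
        · exfalso; simp only at e; nlinarith
        · rfl
        · exfalso; simp only at e; nlinarith
      exact hst ((key s hs e1).trans (key t ht e2).symm)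
  obtain ⟨s, hs, t, ht, hst, e1, e2⟩ := two T hR ⟨0, 2 * h⟩ ⟨1/2, h⟩
    ((hT _).mpr (by tauto)) ((hT _).mpr (by tauto)) (by
      intro hc
      have := congrArg Complex.im hc
      simp only at this
      exact h0 (by linarith))
  have key : ∀ u ∈ T, (u.re - 0) ^ 2 + (u.im - 2 * h) ^ 2 = (u.re - 1/2) ^ 2 + (u.im - h) ^ 2 →
      u = ⟨-1/2, h⟩ := by
    intro u hu e
    rcases (hT u).mp hu with rfl | rfl | rfl | rfl | rfl | rfl | rfl | rfl
    · exfalso; simp only at e; nlinarith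
    · exfalso; simp only at e; nlinarith
    · exfalso; simp only at e; nlinarith
    · exfalso; simp only at e; nlinarith
    · rfl
    · exfalso; simp only at e; nlinarith
    · exfalso; simp only at e; nlinarith
    · exfalso; simp only at e; nlinarith
  exact hst ((key s hs e1).trans (key t ht e2).symm)

theorem hNA2 : StNA2 := by
  intro T y0 y1 y2 y3 y4 n0 n1 n2 n3 n4 n12 n34 hR hT
  obtain ⟨s, hs, t, ht, hst, e1, e2⟩ := two T hR ⟨0, 0⟩ ⟨0, y0⟩
    ((hT _).mpr (by tauto)) ((hT _).mpr (by tauto)) (by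
      intro hc; exact n0 (congrArg Complex.im hc).symm)
  have key : ∀ u ∈ T, (u.re - 0) ^ 2 + (u.im - 0) ^ 2 = (u.re - 0) ^ 2 + (u.im - y0) ^ 2 →
      (u = ⟨-1/2, y1⟩ ∧ y0 = 2 * y1) ∨ (u = ⟨-1/2, y2⟩ ∧ y0 = 2 * y2) ∨
      (u = ⟨1/2, y3⟩ ∧ y0 = 2 * y3) ∨ (u = ⟨1/2, y4⟩ ∧ y0 = 2 * y4) := by
    intro u hu e
    have e' : y0 = 2 * u.im := by
      have h3 : y0 * (y0 - 2 * u.im) = 0 := by linear_combination -e
      rcases mul_eq_zero.mp h3 with h5 | h5
      · exact absurd h5 n0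
      · linarith
    rcases (hT u).mp hu with rfl | rfl | rfl | rfl | rfl | rfl | rfl | rfl <;> simp only at e'
    · exact absurd (by linarith) n0
    · exact absurd (by linarith) n0
    · exact absurd (by linarith) n0
    · exact absurd (by linarith) n0
    · left; exact ⟨rfl, e'⟩
    · right; left; exact ⟨rfl, e'⟩
    · right; right; left; exact ⟨rfl, e'⟩
    · right; right; right; exact ⟨rfl, e'⟩
  have fin : (y0 = 2 * y1 ∨ y0 = 2 * y2) ∧ (y0 = 2 * y3 ∨ y0 = 2 * y4) := by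
    rcases key s hs e1 with ⟨a1, a2⟩ | ⟨a1, a2⟩ | ⟨a1, a2⟩ | ⟨a1, a2⟩ <;>
    rcases key t ht e2 with ⟨b1, b2⟩ | ⟨b1, b2⟩ | ⟨b1, b2⟩ | ⟨b1, b2⟩
    · exact absurd (a1.trans b1.symm) hst
    · exact absurd (by linarith) n12
    · exact ⟨Or.inl a2, Or.inl b2⟩
    · exact ⟨Or.inl a2, Or.inr b2⟩
    · exact absurd (by linarith) n12
    · exact absurd (a1.trans b1.symm) hst
    · exact ⟨Or.inr a2, Or.inl b2⟩
    · exact ⟨Or.inr a2, Or.inr b2⟩
    · exact ⟨Or.inl b2, Or.inl a2⟩
    · exact ⟨Or.inr b2, Or.inl a2⟩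
    · exact absurd (a1.trans b1.symm) hst
    · exact absurd (by linarith) n34
    · exact ⟨Or.inl b2, Or.inr a2⟩
    · exact ⟨Or.inr b2, Or.inr a2⟩
    · exact absurd (by linarith) n34
    · exact absurd (a1.trans b1.symm) hst
  obtain ⟨c1 | c1, c2 | c2⟩ := fin
  · obtain rfl : y3 = y1 := by linarith
    subst c1
    exact core T y3 y2 y4 n3 n2 n4 n12 n34 hR hT
  · obtain rfl : y4 = y1 := by linarith
    subst c1
    exact core T y4 y2 y3 n4 n2 n3 n12 n34.symm hR (fun z => by rw [hT z]; tauto)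
  · obtain rfl : y3 = y2 := by linarith
    subst c1
    exact core T y3 y1 y4 n3 n1 n4 n12.symm n34 hR (fun z => by rw [hT z]; tauto)
  · obtain rfl : y4 = y2 := by linarith
    subst c1
    exact core T y4 y1 y3 n4 n1 n3 n12.symm n34.symm hR (fun z => by rw [hT z]; tauto)

end Pool.Agent.Helper97.BR
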